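import Pool.Agent.K1H35.SH.Stm2
import Pool.Agent.K1H35.SH.Fin

/-! Piece SM of the project SQ (MP_0fd30f_pr): smoothing and symmetry of the number of graphs with
a given degree sequence. -/

namespace Pool.Agent.K1H59.SQ

open Finset
open Pool.Agent.K1H35.SH

/-- replace the edge `ix` by `jx` -/
def mv {n : ℕ} (i j x : Fin n) (G : SimpleGraph (Fin n)) : SimpleGraph (Fin n) where
  Adj a b := (G.Adj a b ∧ s(a, b) ≠ s(i, x)) ∨ (a ≠ b ∧ s(a, b) = s(j, x))
  symm := ⟨by
    intro a b h
    rcases h with h | h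
    · refine Or.inl ⟨h.1.symm, ?_⟩
      rw [Sym2.eq_swap]
      exact h.2
    · refine Or.inr ⟨h.1.symm, ?_⟩
      rw [Sym2.eq_swap]
      exact h.2⟩
  loopless := ⟨fun a h => by
    rcases h with h | h
    · exact G.irrefl h.1
    · exact h.1 rfl⟩

theorem mv_adj {n : ℕ} (i j x : Fin n) (G : SimpleGraph (Fin n)) (a b : Fin n) :
    (mv i j x G).Adj a b ↔ (G.Adj a b ∧ s(a, b) ≠ s(i, x)) ∨ (a ≠ b ∧ s(a, b) = s(j, x)) :=
  Iff.rfl

/-- `i`-private neighbours -/
noncomputable def PA {n : ℕ} (i j : Fin n) (G : SimpleGraph (Fin n)) : Finset (Fin n) := by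
  classical exact nb G i \ insert j (nb G j)

theorem mem_PA {n : ℕ} (i j x : Fin n) (G : SimpleGraph (Fin n)) :
    x ∈ PA i j G ↔ G.Adj i x ∧ x ≠ j ∧ ¬ G.Adj j x := by
  classical
  unfold PA
  simp [mem_nb]

theorem PA_card {n : ℕ} (i j : Fin n) (hij : i ≠ j) (G : SimpleGraph (Fin n)) :
    (PA i j G).card + (nb G j).card = (PA j i G).card + (nb G i).card := by
  classical
  have h1 : (nb G i \ insert j (nb G j)).card + (nb G i ∩ insert j (nb G j)).card = (nb G i).card :=
    Finset.card_sdiff_add_card_inter _ _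
  have h2 : (nb G j \ insert i (nb G i)).card + (nb G j ∩ insert i (nb G i)).card = (nb G j).card :=
    Finset.card_sdiff_add_card_inter _ _
  have h3 : (nb G i ∩ insert j (nb G j)).card = (nb G j ∩ insert i (nb G i)).card := by
    by_cases h : G.Adj i j
    · have e1 : nb G i ∩ insert j (nb G j) = insert j (nb G i ∩ nb G j) := by
        ext x
        simp only [mem_inter, mem_insert, mem_nb]
        constructor
        · rintro ⟨a, b | b⟩
          · exact Or.inl b
          · exact Or.inr ⟨a, b⟩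
        · rintro (rfl | ⟨a, b⟩)
          · exact ⟨h, Or.inl rfl⟩
          · exact ⟨a, Or.inr b⟩
      have e2 : nb G j ∩ insert i (nb G i) = insert i (nb G i ∩ nb G j) := by
        ext x
        simp only [mem_inter, mem_insert, mem_nb]
        constructor
        · rintro ⟨a, b | b⟩
          · exact Or.inl b
          · exact Or.inr ⟨b, a⟩
        · rintro (rfl | ⟨a, b⟩)
          · exact ⟨h.symm, Or.inl rfl⟩
          · exact ⟨b, Or.inr a⟩
      rw [e1, e2, card_insert_of_notMem, card_insert_of_notMem]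
      · simp [mem_nb]
      · simp [mem_nb]
    · have h' : ¬ G.Adj j i := fun c => h c.symm
      have e1 : nb G i ∩ insert j (nb G j) = nb G i ∩ nb G j := by
        ext x
        simp only [mem_inter, mem_insert, mem_nb]
        constructor
        · rintro ⟨a, b | b⟩
          · subst b
            exact absurd a h
          · exact ⟨a, b⟩
        · rintro ⟨a, b⟩
          exact ⟨a, Or.inr b⟩
      have e2 : nb G j ∩ insert i (nb G i) = nb G i ∩ nb G j := by
        ext x
        simp only [mem_inter, mem_insert, mem_nb]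
        constructor
        · rintro ⟨a, b | b⟩
          · subst b
            exact absurd a h'
          · exact ⟨b, a⟩
        · rintro ⟨a, b⟩
          exact ⟨b, Or.inr a⟩
      rw [e1, e2]
  unfold PA
  have h4 : (nb G i \ insert j (nb G j)).card + (nb G j).card
      = (nb G j \ insert i (nb G i)).card + (nb G i).card := by omega
  convert h4

section move

variable {n : ℕ} {i j x : Fin n} {G : SimpleGraph (Fin n)}

theorem mv_i (hij : i ≠ j) (h1 : G.Adj i x) (h2 : x ≠ j) (b : Fin n) :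
    (mv i j x G).Adj i b ↔ G.Adj i b ∧ b ≠ x := by
  rw [mv_adj]
  have hix : i ≠ x := h1.ne
  constructor
  · rintro (⟨a, c⟩ | ⟨a, c⟩)
    · refine ⟨a, ?_⟩
      rintro rfl
      exact c rfl
    · rw [Sym2.eq_iff] at c
      rcases c with ⟨c, -⟩ | ⟨c, -⟩
      · exact absurd c hij
      · exact absurd c hix
  · rintro ⟨a, c⟩
    refine Or.inl ⟨a, ?_⟩
    intro e
    rw [Sym2.eq_iff] at e
    rcases e with ⟨-, e⟩ | ⟨e, -⟩
    · exact c e
    · exact hix e

theorem mv_j (hij : i ≠ j) (h1 : G.Adj i x) (h2 : x ≠ j) (b : Fin n) :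
    (mv i j x G).Adj j b ↔ G.Adj j b ∨ b = x := by
  rw [mv_adj]
  have hix : i ≠ x := h1.ne
  constructor
  · rintro (⟨a, c⟩ | ⟨a, c⟩)
    · exact Or.inl a
    · rw [Sym2.eq_iff] at c
      rcases c with ⟨-, c⟩ | ⟨c, -⟩
      · exact Or.inr c
      · exact absurd c.symm h2
  · rintro (a | a)
    · refine Or.inl ⟨a, ?_⟩
      intro e
      rw [Sym2.eq_iff] at e
      rcases e with ⟨e, -⟩ | ⟨e, -⟩
      · exact hij e.symm
      · exact h2 e.symm
    · subst a
      exact Or.inr ⟨h2.symm, rfl⟩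

theorem mv_x (hij : i ≠ j) (h1 : G.Adj i x) (h2 : x ≠ j) (b : Fin n) :
    (mv i j x G).Adj x b ↔ (G.Adj x b ∧ b ≠ i) ∨ b = j := by
  rw [mv_adj]
  have hix : i ≠ x := h1.ne
  constructor
  · rintro (⟨a, c⟩ | ⟨a, c⟩)
    · refine Or.inl ⟨a, ?_⟩
      rintro rfl
      exact c Sym2.eq_swap
    · rw [Sym2.eq_iff] at c
      rcases c with ⟨c, -⟩ | ⟨-, c⟩
      · exact absurd c h2
      · exact Or.inr c
  · rintro (⟨a, c⟩ | a)
    · refine Or.inl ⟨a, ?_⟩
      intro e
      rw [Sym2.eq_iff] at e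
      rcases e with ⟨e, -⟩ | ⟨-, e⟩
      · exact hix e.symm
      · exact c e
    · subst a
      exact Or.inr ⟨h2, Sym2.eq_swap⟩

theorem mv_z {z : Fin n} (hi : z ≠ i) (hj : z ≠ j) (hx : z ≠ x) (b : Fin n) :
    (mv i j x G).Adj z b ↔ G.Adj z b := by
  rw [mv_adj]
  constructor
  · rintro (⟨a, c⟩ | ⟨a, c⟩)
    · exact a
    · rw [Sym2.eq_iff] at c
      rcases c with ⟨c, -⟩ | ⟨c, -⟩
      · exact absurd c hj
      · exact absurd c hx
  · intro a
    refine Or.inl ⟨a, ?_⟩
    intro e
    rw [Sym2.eq_iff] at e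
    rcases e with ⟨e, -⟩ | ⟨e, -⟩
    · exact hi e
    · exact hx e

theorem mv_mv (hij : i ≠ j) (h1 : G.Adj i x) (h2 : x ≠ j) (h3 : ¬ G.Adj j x) :
    mv j i x (mv i j x G) = G := by
  have hix : i ≠ x := h1.ne
  ext a b
  rw [mv_adj, mv_adj]
  constructor
  · rintro (⟨⟨a1, a2⟩ | ⟨a1, a2⟩, c⟩ | ⟨c1, c2⟩)
    · exact a1
    · exact absurd a2 c
    · rw [Sym2.eq_iff] at c2
      rcases c2 with ⟨rfl, rfl⟩ | ⟨rfl, rfl⟩
      · exact h1
      · exact h1.symm
  · intro h
    by_cases e : s(a, b) = s(i, x)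
    · exact Or.inr ⟨h.ne, e⟩
    · refine Or.inl ⟨Or.inl ⟨h, e⟩, ?_⟩
      intro e'
      rw [Sym2.eq_iff] at e'
      rcases e' with ⟨rfl, rfl⟩ | ⟨rfl, rfl⟩
      · exact h3 h
      · exact h3 h.symm

theorem nb_mv_i (hij : i ≠ j) (h1 : G.Adj i x) (h2 : x ≠ j) :
    (nb (mv i j x G) i).card = (nb G i).card - 1 := by
  classical
  have e : nb (mv i j x G) i = (nb G i).erase x := by
    ext b
    rw [mem_nb, mv_i hij h1 h2, mem_erase, mem_nb]
    tauto
  rw [e, card_erase_of_mem ((mem_nb _ _ _).mpr h1)]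

theorem nb_mv_j (hij : i ≠ j) (h1 : G.Adj i x) (h2 : x ≠ j) (h3 : ¬ G.Adj j x) :
    (nb (mv i j x G) j).card = (nb G j).card + 1 := by
  classical
  have e : nb (mv i j x G) j = insert x (nb G j) := by
    ext b
    rw [mem_nb, mv_j hij h1 h2, mem_insert, mem_nb]
    tauto
  rw [e, card_insert_of_notMem (fun c => h3 ((mem_nb _ _ _).mp c))]

theorem nb_mv_x (hij : i ≠ j) (h1 : G.Adj i x) (h2 : x ≠ j) (h3 : ¬ G.Adj j x) :
    (nb (mv i j x G) x).card = (nb G x).card := by
  classical
  have e : nb (mv i j x G) x = insert j ((nb G x).erase i) := by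
    ext b
    rw [mem_nb, mv_x hij h1 h2, mem_insert, mem_erase, mem_nb]
    tauto
  have hm : i ∈ nb G x := (mem_nb _ _ _).mpr h1.symm
  rw [e, card_insert_of_notMem, card_erase_of_mem hm]
  · have := card_pos.mpr ⟨i, hm⟩
    omega
  · intro c
    rw [mem_erase, mem_nb] at c
    exact h3 c.2.symm

theorem nb_mv_z {z : Fin n} (hi : z ≠ i) (hj : z ≠ j) (hx : z ≠ x) :
    (nb (mv i j x G) z).card = (nb G z).card := by
  congr 1
  ext b
  rw [mem_nb, mv_z hi hj hx, mem_nb]

theorem PA_mv (hij : i ≠ j) (h1 : G.Adj i x) (h2 : x ≠ j) (h3 : ¬ G.Adj j x) :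
    (PA i j (mv i j x G)).card + 1 = (PA i j G).card ∧
      (PA j i (mv i j x G)).card = (PA j i G).card + 1 ∧ x ∈ PA j i (mv i j x G) := by
  classical
  have hix : i ≠ x := h1.ne
  have e1 : PA i j (mv i j x G) = (PA i j G).erase x := by
    ext b
    rw [mem_PA, mv_i hij h1 h2, mv_j hij h1 h2, mem_erase, mem_PA]
    tauto
  have e2 : PA j i (mv i j x G) = insert x (PA j i G) := by
    ext b
    rw [mem_PA, mv_i hij h1 h2, mv_j hij h1 h2, mem_insert, mem_PA]
    constructor
    · rintro ⟨a | a, c, d⟩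
      · by_cases hb : b = x
        · exact Or.inl hb
        · exact Or.inr ⟨a, c, fun e => d ⟨e, hb⟩⟩
      · exact Or.inl a
    · rintro (a | ⟨a, c, d⟩)
      · subst a
        exact ⟨Or.inr rfl, hix.symm, fun e => e.2 rfl⟩
      · exact ⟨Or.inl a, c, fun e => d e.1⟩
  have hm : x ∈ PA i j G := (mem_PA _ _ _ _).mpr ⟨h1, h2, h3⟩
  have hm' : x ∉ PA j i G := by
    rw [mem_PA]
    rintro ⟨a, -⟩
    exact h3 a
  refine ⟨?_, ?_, ?_⟩
  · rw [e1, card_erase_of_mem hm]
    have := card_pos.mpr ⟨x, hm⟩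
    omega
  · rw [e2, card_insert_of_notMem hm']
  · rw [e2]
    exact mem_insert_self _ _

end move

/-- the set counted by `cntQ` -/
noncomputable def Om {n : ℕ} (Q : Fin n → Fin n → Prop) (D : Fin n → ℕ) :
    Finset (SimpleGraph (Fin n)) := by
  classical exact univ.filter (fun G : SimpleGraph (Fin n) => (∀ x y, G.Adj x y → Q x y) ∧
    ∀ v, (nb G v).card = D v)

theorem mem_Om {n : ℕ} (Q : Fin n → Fin n → Prop) (D : Fin n → ℕ) (G : SimpleGraph (Fin n)) :
    G ∈ Om Q D ↔ (∀ x y, G.Adj x y → Q x y) ∧ ∀ v, (nb G v).card = D v := by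
  classical
  unfold Om
  simp

theorem cntQ_eq {n : ℕ} (Q : Fin n → Fin n → Prop) (D : Fin n → ℕ) :
    cntQ Q D = (Om Q D).card := rfl

theorem mv_mem {n : ℕ} {Q : Fin n → Fin n → Prop} {i j x : Fin n} {G : SimpleGraph (Fin n)}
    {D : Fin n → ℕ} (hs : ∀ x y, Q x y → Q y x) (hij : i ≠ j)
    (hQ : ∀ k, k ≠ i → k ≠ j → (Q i k ↔ Q j k))
    (h1 : G.Adj i x) (h2 : x ≠ j) (h3 : ¬ G.Adj j x) (hG : G ∈ Om Q D) :
    mv i j x G ∈ Om Q (Function.update (Function.update D i (D i - 1)) j (D j + 1)) := by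
  rw [mem_Om] at hG ⊢
  obtain ⟨hG1, hG2⟩ := hG
  have hjx : Q j x := (hQ x h1.ne.symm h2).mp (hG1 _ _ h1)
  refine ⟨?_, ?_⟩
  · intro a b h
    rw [mv_adj] at h
    rcases h with h | h
    · exact hG1 _ _ h.1
    · obtain ⟨-, h⟩ := h
      rw [Sym2.eq_iff] at h
      rcases h with ⟨rfl, rfl⟩ | ⟨rfl, rfl⟩
      · exact hjx
      · exact hs _ _ hjx
  · intro v
    by_cases hvj : v = j
    · subst hvj
      rw [Function.update_self, nb_mv_j hij h1 h2 h3, hG2]
    · rw [Function.update_of_ne hvj]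
      by_cases hvi : v = i
      · subst hvi
        rw [Function.update_self, nb_mv_i hij h1 h2, hG2]
      · rw [Function.update_of_ne hvi]
        by_cases hvx : v = x
        · subst hvx
          rw [nb_mv_x hij h1 h2 h3, hG2]
        · rw [nb_mv_z hvi hvj hvx, hG2]

theorem fib {n : ℕ} {Q : Fin n → Fin n → Prop} {i j : Fin n}
    {D : Fin n → ℕ} (hs : ∀ x y, Q x y → Q y x) (hij : i ≠ j)
    (hQ : ∀ k, k ≠ i → k ≠ j → (Q i k ↔ Q j k)) (hD : D j + 2 ≤ D i) (σ : ℕ) :
    ((Om Q D).filter (fun G => (PA i j G).card + (PA j i G).card = σ)).card ≤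
      ((Om Q (Function.update (Function.update D i (D i - 1)) j (D j + 1))).filter
        (fun G => (PA i j G).card + (PA j i G).card = σ)).card := by
  classical
  set D' := Function.update (Function.update D i (D i - 1)) j (D j + 1) with hD'
  set X := (Om Q D).filter (fun G => (PA i j G).card + (PA j i G).card = σ) with hX
  set Y := (Om Q D').filter (fun G => (PA i j G).card + (PA j i G).card = σ) with hY
  -- double counting
  have d1 := Finset.sum_card_bipartiteAbove_eq_sum_card_bipartiteBelow (s := X)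
    (t := (univ : Finset (Fin n))) (fun G x => x ∈ PA i j G)
  have d2 := Finset.sum_card_bipartiteAbove_eq_sum_card_bipartiteBelow (s := Y)
    (t := (univ : Finset (Fin n))) (fun G x => x ∈ PA j i G)
  have key : ∀ x ∈ (univ : Finset (Fin n)), (bipartiteBelow (fun G x => x ∈ PA i j G) X x).card ≤
      (bipartiteBelow (fun G x => x ∈ PA j i G) Y x).card := by
    intro x _
    apply Finset.card_le_card_of_injOn (fun G => mv i j x G)
    · intro G hG
      simp only [bipartiteBelow, coe_filter, Set.mem_setOf_eq, hX, mem_filter] at hG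
      simp only [bipartiteBelow, coe_filter, Set.mem_setOf_eq, hY, mem_filter]
      obtain ⟨⟨hG1, hG2⟩, hG3⟩ := hG
      rw [mem_PA] at hG3
      obtain ⟨h1, h2, h3⟩ := hG3
      obtain ⟨p1, p2, p3⟩ := PA_mv hij h1 h2 h3
      refine ⟨⟨mv_mem hs hij hQ h1 h2 h3 hG1, ?_⟩, p3⟩
      omega
    · intro G hG G' hG' he
      simp only [bipartiteBelow, coe_filter, Set.mem_setOf_eq, hX, mem_filter] at hG hG'
      have hG3 := hG.2
      have hG3' := hG'.2
      rw [mem_PA] at hG3 hG3'
      have q1 := mv_mv hij hG3.1 hG3.2.1 hG3.2.2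
      have q2 := mv_mv hij hG3'.1 hG3'.2.1 hG3'.2.2
      have he' : mv i j x G = mv i j x G' := he
      rw [← q1, ← q2, he']
  have d3 := Finset.sum_le_sum key
  rw [← d1, ← d2] at d3
  -- the sums
  have s1 : 2 * ∑ G ∈ X, (bipartiteAbove (fun G x => x ∈ PA i j G) (univ : Finset (Fin n)) G).card
      = X.card * (σ + (D i - D j)) := by
    rw [mul_sum, card_eq_sum_ones, sum_mul]
    apply sum_congr rfl
    intro G hG
    have e : bipartiteAbove (fun G x => x ∈ PA i j G) (univ : Finset (Fin n)) G = PA i j G := by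
      ext x
      simp [bipartiteAbove]
    rw [e]
    rw [hX, mem_filter, mem_Om] at hG
    have c1 := PA_card i j hij G
    rw [hG.1.2 i, hG.1.2 j] at c1
    have c2 := hG.2
    omega
  have s2 : 2 * ∑ G ∈ Y, (bipartiteAbove (fun G x => x ∈ PA j i G) (univ : Finset (Fin n)) G).card
      ≤ Y.card * (σ + (D i - D j)) := by
    rw [mul_sum, card_eq_sum_ones, sum_mul]
    apply sum_le_sum
    intro G hG
    have e : bipartiteAbove (fun G x => x ∈ PA j i G) (univ : Finset (Fin n)) G = PA j i G := by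
      ext x
      simp [bipartiteAbove]
    rw [e]
    rw [hY, mem_filter, mem_Om] at hG
    have c1 := PA_card i j hij G
    have e1 : D' i = D i - 1 := by
      rw [hD', Function.update_of_ne hij, Function.update_self]
    have e2 : D' j = D j + 1 := by
      rw [hD', Function.update_self]
    rw [hG.1.2 i, hG.1.2 j, e1, e2] at c1
    have c2 := hG.2
    omega
  have hpos : 0 < σ + (D i - D j) := by omega
  have fin : X.card * (σ + (D i - D j)) ≤ Y.card * (σ + (D i - D j)) := by
    rw [← s1]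
    exact le_trans (Nat.mul_le_mul_left 2 d3) s2
  exact Nat.le_of_mul_le_mul_right fin hpos

theorem smooth {n : ℕ} {Q : Fin n → Fin n → Prop} {i j : Fin n}
    {D : Fin n → ℕ} (hs : ∀ x y, Q x y → Q y x) (hij : i ≠ j)
    (hQ : ∀ k, k ≠ i → k ≠ j → (Q i k ↔ Q j k)) (hD : D j + 2 ≤ D i) :
    cntQ Q D ≤ cntQ Q (Function.update (Function.update D i (D i - 1)) j (D j + 1)) := by
  classical
  rw [cntQ_eq, cntQ_eq]
  have h1 : (Om Q D).card = ∑ σ ∈ range (2 * n + 1),
      ((Om Q D).filter (fun G => (PA i j G).card + (PA j i G).card = σ)).card := by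
    apply Finset.card_eq_sum_card_fiberwise
    intro G _
    have a := Finset.card_le_univ (PA i j G)
    have b := Finset.card_le_univ (PA j i G)
    rw [Fintype.card_fin] at a b
    simp only [coe_range, Set.mem_Iio]
    omega
  have h2 : (Om Q (Function.update (Function.update D i (D i - 1)) j (D j + 1))).card =
      ∑ σ ∈ range (2 * n + 1),
      ((Om Q (Function.update (Function.update D i (D i - 1)) j (D j + 1))).filter
        (fun G => (PA i j G).card + (PA j i G).card = σ)).card := by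
    apply Finset.card_eq_sum_card_fiberwise
    intro G _
    have a := Finset.card_le_univ (PA i j G)
    have b := Finset.card_le_univ (PA j i G)
    rw [Fintype.card_fin] at a b
    simp only [coe_range, Set.mem_Iio]
    omega
  rw [h1, h2]
  exact Finset.sum_le_sum (fun σ _ => fib hs hij hQ hD σ)

/-- relabelling by the transposition of `i, j` -/
def rl {n : ℕ} (i j : Fin n) (G : SimpleGraph (Fin n)) : SimpleGraph (Fin n) :=
  G.comap (Equiv.swap i j)

theorem rl_adj {n : ℕ} (i j : Fin n) (G : SimpleGraph (Fin n)) (a b : Fin n) :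
    (rl i j G).Adj a b ↔ G.Adj (Equiv.swap i j a) (Equiv.swap i j b) := Iff.rfl

theorem rl_rl {n : ℕ} (i j : Fin n) (G : SimpleGraph (Fin n)) : rl i j (rl i j G) = G := by
  ext a b
  rw [rl_adj, rl_adj, Equiv.swap_apply_self, Equiv.swap_apply_self]

theorem nb_rl {n : ℕ} (i j : Fin n) (G : SimpleGraph (Fin n)) (v : Fin n) :
    (nb (rl i j G) v).card = (nb G (Equiv.swap i j v)).card := by
  classical
  have e : nb (rl i j G) v = (nb G (Equiv.swap i j v)).map (Equiv.swap i j).toEmbedding := by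
    ext b
    rw [mem_nb, rl_adj, mem_map_equiv, mem_nb, Equiv.symm_swap]
  rw [e, card_map]

theorem Q_swap {n : ℕ} {Q : Fin n → Fin n → Prop} {i j : Fin n}
    (hs : ∀ x y, Q x y → Q y x) (hQ : ∀ k, k ≠ i → k ≠ j → (Q i k ↔ Q j k))
    (a b : Fin n) (hab : a ≠ b) (h : Q (Equiv.swap i j a) (Equiv.swap i j b)) : Q a b := by
  by_cases hai : a = i
  · subst hai
    rw [Equiv.swap_apply_left] at h
    by_cases hbj : b = j
    · subst hbj
      rw [Equiv.swap_apply_right] at h
      exact hs _ _ h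
    · rw [Equiv.swap_apply_of_ne_of_ne hab.symm hbj] at h
      exact (hQ b hab.symm hbj).mpr h
  · by_cases haj : a = j
    · subst haj
      rw [Equiv.swap_apply_right] at h
      by_cases hbi : b = i
      · subst hbi
        rw [Equiv.swap_apply_left] at h
        exact hs _ _ h
      · rw [Equiv.swap_apply_of_ne_of_ne hbi hab.symm] at h
        exact (hQ b hbi hab.symm).mp h
    · rw [Equiv.swap_apply_of_ne_of_ne hai haj] at h
      by_cases hbi : b = i
      · subst hbi
        rw [Equiv.swap_apply_left] at h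
        exact hs _ _ ((hQ a hai haj).mpr (hs _ _ h))
      · by_cases hbj : b = j
        · subst hbj
          rw [Equiv.swap_apply_right] at h
          exact hs _ _ ((hQ a hai haj).mp (hs _ _ h))
        · rw [Equiv.swap_apply_of_ne_of_ne hbi hbj] at h
          exact h

theorem rl_le {n : ℕ} {Q : Fin n → Fin n → Prop} {i j : Fin n}
    (hs : ∀ x y, Q x y → Q y x) (hQ : ∀ k, k ≠ i → k ≠ j → (Q i k ↔ Q j k)) (D : Fin n → ℕ) :
    cntQ Q D ≤ cntQ Q (D ∘ Equiv.swap i j) := by
  classical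
  rw [cntQ_eq, cntQ_eq]
  apply Finset.card_le_card_of_injOn (fun G => rl i j G)
  · intro G hG
    rw [mem_coe, mem_Om] at hG ⊢
    refine ⟨?_, ?_⟩
    · intro a b h
      exact Q_swap hs hQ a b h.ne (hG.1 _ _ ((rl_adj i j G a b).mp h))
    · intro v
      rw [nb_rl, hG.2]
      rfl
  · intro G _ G' _ h
    have h' : rl i j G = rl i j G' := h
    rw [← rl_rl i j G, h', rl_rl]

theorem t_SM : S_SM := by
  intro n Q i j hs hij hQ
  refine ⟨fun D hD => smooth hs hij hQ hD, fun D => ?_⟩
  apply le_antisymm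
  · have h := rl_le hs hQ (D ∘ Equiv.swap i j)
    have e : (D ∘ Equiv.swap i j) ∘ Equiv.swap i j = D := by
      funext v
      simp
    rw [e] at h
    exact h
  · exact rl_le hs hQ D

end Pool.Agent.K1H59.SQ
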